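import Pool.Agent.R130.RamC

/-!
# Monoid actions on `FIN_k` with monochromatic spans: a characterization (MP_14f6a1_co, Q1)

`PF α` (in `Pool.Agent.R130.RamA`) is the set of partial functions from `ℕ` to `α` with finite
domain; `s * t` is `s` on the domain of `s` and `t` elsewhere, so it is the union of `s` and `t`
whenever `max dom s < min dom t`; `PF.map g s` is the letterwise application of `g`.
-/

open Filter
open Pool.Agent.R130.Ram

namespace Pool.Agent.Results.MP_14f6a1_co.Characterization

attribute [local instance] Ultrafilter.semigroup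

/-- `FIN_k`. -/
abbrev FIN (k : ℕ) := PF (Fin k)

/-- `dom s` lies entirely to the left of `dom t` (so that `s · t` is defined). -/
def Before {k : ℕ} (s t : FIN k) : Prop := ∀ i j, s.val i ≠ none → t.val j ≠ none → i < j

/-- A basic sequence. -/
def Basic {k : ℕ} (s : ℕ → FIN k) : Prop := ∀ i j, i < j → Before (s i) (s j)

/-- Coordinatewise action of `m`. -/
def act {k : ℕ} {M : Type*} [Monoid M] [MulAction M (Fin k)] (m : M) (s : FIN k) : FIN k :=
  PF.map (fun i => m • i) s

/-- The `M`-span of `s`: all products `m₀ s_{i₀} · m₁ s_{i₁} ⋯ m_r s_{i_r}` with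
`i₀ < i₁ < ⋯ < i_r` and some `m_j = 1`; the list `l` is `[(i₀, m₀), …, (i_r, m_r)]`. -/
def MSpan {k : ℕ} (M : Type*) [Monoid M] [MulAction M (Fin k)] (s : ℕ → FIN k) : Set (FIN k) :=
  {x | ∃ l : List (ℕ × M), l.Pairwise (fun a b => a.1 < b.1) ∧ (∃ a ∈ l, a.2 = 1) ∧
    x = (l.map (fun a => act a.2 (s a.1))).prod}

/-- Property (R). -/
def PropertyR (k : ℕ) (M : Type*) [Monoid M] [MulAction M (Fin k)] (p : Fin k) : Prop :=
  ∀ (r : ℕ) (c : FIN k → Fin r), ∃ s : ℕ → FIN k, Basic s ∧
    (∀ n, ∃ i, (s n).val i = some p) ∧ ∃ a, ∀ x ∈ MSpan M s, c x = a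

/-- The criterion: there is a strict linear order on `k` for which every `m` is a restricted growth
map: every letter below `m x` is the image under `m` of a letter below `x`. -/
def GrowthOrder (k : ℕ) (M : Type*) [Monoid M] [MulAction M (Fin k)] : Prop :=
  ∃ lt : Fin k → Fin k → Prop, IsStrictTotalOrder (Fin k) lt ∧
    ∀ (m : M) (x y : Fin k), lt y (m • x) → ∃ x', lt x' x ∧ m • x' = y

/-! ### Necessity -/

theorem necessity {k : ℕ} {M : Type*} [Monoid M] [MulAction M (Fin k)] {p : Fin k}
    (hp : ∀ x, ∃ m : M, m • p = x) (h : PropertyR k M p) : GrowthOrder k M := by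
  classical
  let C := Set (Fin k) × Set (Fin k × Fin k)
  let c0 : FIN k → C := fun s => ({x | ∃ i, s.val i = some x},
    {z | ∃ n, s.val n = some z.1 ∧ ∀ n' ≤ n, s.val n' ≠ some z.2})
  obtain ⟨r, ⟨e⟩⟩ := Finite.exists_equiv_fin C
  obtain ⟨s, hb, hps, a, ha⟩ := h r (fun s => e (c0 s))
  have hmono : ∀ x ∈ MSpan M s, ∀ y ∈ MSpan M s, c0 x = c0 y := by
    intro x hx y hy
    exact e.injective ((ha x hx).trans (ha y hy).symm)
  have h0 : s 0 ∈ MSpan M s := by
    refine ⟨[(0, 1)], List.pairwise_singleton _ _, ⟨(0, 1), by simp, rfl⟩, ?_⟩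
    rw [List.map_singleton, List.prod_singleton]
    apply PF.ext
    funext n
    simp [act, PF.map_val]
  have h1 : ∀ m : M, act m (s 0) * s 1 ∈ MSpan M s := by
    intro m
    refine ⟨[(0, m), (1, 1)], by simp, ⟨(1, 1), by simp, rfl⟩, ?_⟩
    rw [List.map_cons, List.map_singleton, List.prod_cons, List.prod_singleton]
    congr 1
    apply PF.ext
    funext n
    simp [act, PF.map_val]
  have heq : ∀ m : M, c0 (act m (s 0) * s 1) = c0 (s 0) := fun m => hmono _ (h1 m) _ h0
  have hval : ∀ (m : M) (n : ℕ) (x : Fin k), (s 0).val n = some x →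
      (act m (s 0) * s 1).val n = some (m • x) := by
    intro m n x hx
    rw [PF.mul_val, act, PF.map_val, hx]
    rfl
  -- every letter occurs in `s 0`
  have hran : ∀ x, ∃ i, (s 0).val i = some x := by
    intro x
    obtain ⟨m, hm⟩ := hp x
    obtain ⟨i, hi⟩ := hps 0
    have h2 : x ∈ (c0 (act m (s 0) * s 1)).1 := ⟨i, by rw [hval m i p hi, hm]⟩
    rw [heq m] at h2
    exact h2
  let f : Fin k → ℕ := fun x => Nat.find (hran x)
  have hf : ∀ x, (s 0).val (f x) = some x := fun x => Nat.find_spec (hran x)
  have hf' : ∀ x n, (s 0).val n = some x → f x ≤ n := fun x n hn => Nat.find_min' (hran x) hn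
  have hfinj : ∀ x y, f x = f y → x = y := by
    intro x y hxy
    have h2 := hf x
    rw [hxy, hf y] at h2
    exact (Option.some.inj h2).symm
  refine ⟨fun x y => f x < f y, ?_, ?_⟩
  · exact
      { trichotomous := fun x y h1 h2 => hfinj x y (by omega)
        irrefl := fun x => lt_irrefl _
        trans := fun x y z h1 h2 => lt_trans h1 h2 }
  · intro m x y hy
    have h2 : (y, m • x) ∈ (c0 (s 0)).2 := by
      refine ⟨f y, hf y, fun n' hn' h3 => ?_⟩
      have h4 : f (m • x) ≤ n' := hf' _ _ h3
      omega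
    rw [← heq m] at h2
    obtain ⟨n, hn, hn'⟩ := h2
    have h3 : n < f x := by
      by_contra h4
      exact hn' (f x) (by omega) (hval m _ _ (hf x))
    have h4 : (s 0).val n ≠ none := by
      intro h5
      have h6 : (s 1).val n ≠ none := by
        intro h7
        have hn2 : (act m (s 0) * s 1).val n = some y := hn
        rw [PF.mul_val, act, PF.map_val, h5, h7] at hn2
        exact absurd hn2 (by simp)
      have := hb 0 1 Nat.zero_lt_one (f x) n (by rw [hf x]; simp) h6
      omega
    obtain ⟨x', hx'⟩ := Option.ne_none_iff_exists'.1 h4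
    refine ⟨x', ?_, ?_⟩
    · have := hf' x' n hx'
      show f x' < f x
      omega
    · have h5 := hval m n x' hx'
      have hn2 : (act m (s 0) * s 1).val n = some y := hn
      rw [hn2] at h5
      exact (Option.some.inj h5).symm

/-! ### Sufficiency -/

/-- A strict total order on `Fin k` is given by an enumeration. -/
theorem exists_perm {k : ℕ} (lt : Fin k → Fin k → Prop) (h : IsStrictTotalOrder (Fin k) lt) :
    ∃ σ : Fin k ≃ Fin k, ∀ x y, lt x y ↔ σ x < σ y := by
  classical
  have hirr : ∀ x, ¬ lt x x := fun x => h.irrefl x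
  have htr : ∀ x y z, lt x y → lt y z → lt x z := fun x y z => h.trans x y z
  have htri : ∀ x y, ¬ lt x y → ¬ lt y x → x = y := fun x y => h.trichotomous x y
  let rank : Fin k → ℕ := fun x => (Finset.univ.filter (fun y => lt y x)).card
  have hlt : ∀ x, rank x < k := by
    intro x
    have h1 : (Finset.univ.filter (fun y => lt y x)) ⊂ (Finset.univ : Finset (Fin k)) := by
      rw [Finset.ssubset_univ_iff]
      intro h2
      have : x ∈ Finset.univ.filter (fun y => lt y x) := by rw [h2]; simp
      simp [hirr] at this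
    have := Finset.card_lt_card h1
    simpa [rank] using this
  have hmono : ∀ x y, lt x y → rank x < rank y := by
    intro x y hxy
    apply Finset.card_lt_card
    rw [Finset.ssubset_iff_of_subset]
    · exact ⟨x, by simp [hxy], by simp [hirr]⟩
    · intro z hz
      simp only [Finset.mem_filter, Finset.mem_univ, true_and] at hz ⊢
      exact htr z x y hz hxy
  let g : Fin k → Fin k := fun x => ⟨rank x, hlt x⟩
  have hinj : Function.Injective g := by
    intro x y hxy
    have h1 : rank x = rank y := congrArg Fin.val hxy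
    by_contra hne
    by_cases h2 : lt x y
    · have := hmono x y h2
      omega
    · by_cases h3 : lt y x
      · have := hmono y x h3
        omega
      · exact hne (htri x y h2 h3)
  refine ⟨Equiv.ofBijective g (Finite.injective_iff_bijective.1 hinj), fun x y => ?_⟩
  show lt x y ↔ rank x < rank y
  constructor
  · exact hmono x y
  · intro h1
    by_contra h2
    by_cases h3 : lt y x
    · have := hmono y x h3
      omega
    · have := htri x y h2 h3
      rw [this] at h1
      omega

theorem RG_le {g : ℕ → ℕ} (hg : RG g) (j : ℕ) : Mx g j ≤ j := by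
  induction j with
  | zero => simp [Mx, hg.1]
  | succ j ih =>
    rw [Mx_succ]
    have : g (j + 1) ≤ Mx g j + 1 := hg.2 j
    omega

theorem le_Mx (g : ℕ → ℕ) (i j : ℕ) (h : i ≤ j) : g i ≤ Mx g j :=
  Finset.le_sup (f := g) (Finset.mem_range.2 (by omega))

theorem sufficiency {k : ℕ} {M : Type*} [Monoid M] [MulAction M (Fin k)] {p : Fin k}
    (hp : ∀ x, ∃ m : M, m • p = x) (h : GrowthOrder k M) : PropertyR k M p := by
  classical
  obtain ⟨lt, hlt, hgrow⟩ := h
  obtain ⟨σ, hσ⟩ := exists_perm lt hlt
  have hk : 0 < k := lt_of_le_of_lt (Nat.zero_le _) p.2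
  obtain ⟨K, rfl⟩ : ∃ K, k = K + 1 := ⟨k - 1, by omega⟩
  -- enumeration
  let a : ℕ → Fin (K + 1) := fun i => σ.symm ⟨min i K, by omega⟩
  have ha : ∀ i, (σ (a i) : ℕ) = min i K := fun i => by simp [a]
  have ha' : ∀ x, a (σ x) = x := by
    intro x
    apply σ.injective
    apply Fin.ext
    rw [ha]
    have := (σ x).2
    omega
  let g : M → ℕ → ℕ := fun m i => (σ (m • a i) : ℕ)
  have hgK : ∀ m i, g m i ≤ K := fun m i => by
    have := (σ (m • a i)).2
    show (σ (m • a i) : ℕ) ≤ K
    omega
  have hRG : ∀ m, RG (g m) := by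
    intro m
    constructor
    · by_contra hne
      have h1 : lt (σ.symm 0) (m • a 0) := by
        rw [hσ, Equiv.apply_symm_apply]
        exact Fin.pos_iff_ne_zero.2 (fun h => hne (by show ((σ (m • a 0) : Fin (K + 1)) : ℕ) = 0; rw [h]; rfl))
      obtain ⟨x', hx', -⟩ := hgrow m _ _ h1
      rw [hσ, Fin.lt_def, ha] at hx'
      omega
    · intro j
      show g m (j + 1) ≤ Mx (g m) j + 1
      by_contra hcon
      push Not at hcon
      have hK := hgK m (j + 1)
      have h1 : lt (σ.symm ⟨Mx (g m) j + 1, by omega⟩) (m • a (j + 1)) := by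
        rw [hσ, Equiv.apply_symm_apply, Fin.lt_def]
        exact hcon
      obtain ⟨x', hx', hx''⟩ := hgrow m _ _ h1
      rw [hσ, Fin.lt_def, ha] at hx'
      have h2 : g m (σ x') = Mx (g m) j + 1 := by
        show (σ (m • a (σ x')) : ℕ) = _
        rw [ha', hx'', Equiv.apply_symm_apply]
      have h3 := le_Mx (g m) (σ x') j (by omega)
      omega
  obtain ⟨u, hu1, hu2, hu3, hu4⟩ := exists_chain
  -- transport to `FIN_k`
  let hmap : L → Fin (K + 1) := fun x => match x with
    | some i => a i
    | none => a 0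
  let U : ℕ → Ultrafilter (FIN (K + 1)) := fun j => Ultrafilter.map (PF.map hmap) (u j)
  have hmapm : ∀ m : M, (fun i => m • i) ∘ hmap = hmap ∘ hat (g m) := by
    intro m
    funext x
    have h1 : ∀ i, m • a i = a (g m i) := fun i => (ha' (m • a i)).symm
    rcases x with _ | i
    · show m • a 0 = a 0
      have := h1 0
      rwa [(hRG m).1] at this
    · exact h1 i
  have hUm : ∀ (m : M) (j : ℕ), Ultrafilter.map (act m) (U j) = U (Mx (g m) j) := by
    intro m j
    show Ultrafilter.map (PF.map (fun i => m • i)) (Ultrafilter.map (PF.map hmap) (u j)) =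
      Ultrafilter.map (PF.map hmap) (u (Mx (g m) j))
    rw [← hu4 (g m) (hRG m) j, T, Ultrafilter.map_map, Ultrafilter.map_map]
    congr 1
    funext s
    show PF.map _ (PF.map _ s) = PF.map _ (PF.map _ s)
    rw [PF.map_map, PF.map_map, hmapm]
  have hUmul : ∀ i j, i ≤ j → U i * U j = U j ∧ U j * U i = U j := by
    intro i j hij
    have h1 := hu1 i j hij
    constructor
    · show Ultrafilter.map (PF.map hmap) (u i) * Ultrafilter.map (PF.map hmap) (u j) =
        Ultrafilter.map (PF.map hmap) (u j)
      rw [← map_mul _ (PF.map_mul' hmap), h1.1]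
    · show Ultrafilter.map (PF.map hmap) (u j) * Ultrafilter.map (PF.map hmap) (u i) =
        Ultrafilter.map (PF.map hmap) (u j)
      rw [← map_mul _ (PF.map_mul' hmap), h1.2]
  -- the distinguished point is the last letter
  have hpK : a K = p := by
    obtain ⟨m, hm⟩ := hp (a K)
    have h1 : g m (σ p) = K := by
      show (σ (m • a (σ p)) : ℕ) = K
      rw [ha', hm, ha]
      omega
    have h2 := le_Mx (g m) (σ p) (σ p) le_rfl
    have h3 := RG_le (hRG m) (σ p)
    have h4 := (σ p).2
    have h5 : (σ p : ℕ) = K := by omega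
    have h6 : a K = a (σ p) := by rw [h5]
    rw [h6]
    exact ha' p
  intro r c
  obtain ⟨col, hcol⟩ := Ultrafilter.eq_pure_of_finite (Ultrafilter.map c (U K))
  have hA : ∀ᶠ x in (U K : Filter (FIN (K + 1))), x ∈ {x | c x = col} := by
    have h1 : ∀ᶠ y in ((Ultrafilter.map c (U K) : Ultrafilter (Fin r)) : Filter (Fin r)),
        y = col := by
      rw [hcol]
      exact Filter.eventually_pure.2 rfl
    rwa [Ultrafilter.coe_map, Filter.eventually_map] at h1
  have hR : ∀ᶠ x in (U K : Filter (FIN (K + 1))), x ∈ {x : FIN (K + 1) | ∃ i, x.val i = some p} := by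
    have h1 : Has (hmap (some K)) (U K) := has_map hmap (hu3 K)
    have h2 : hmap (some K) = p := hpK
    rw [h2] at h1
    exact h1
  have hQ : ∀ b, ∀ᶠ x in (U K : Filter (FIN (K + 1))), Before b x := by
    intro b
    obtain ⟨n, hn⟩ := PF.bdd b
    have hT : Tail (U K) := tail_map hmap (hu2 K)
    filter_upwards [hT n] with x hx
    intro i j hi hj
    by_contra hij
    exact hj (hx j (by have := hn i hi; omega))
  let Φ : Set (FIN (K + 1) → FIN (K + 1)) := Set.range (fun m : M => act m)
  have hΦfin : Φ.Finite := by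
    refine (Set.finite_range (fun f : Fin (K + 1) → Fin (K + 1) => PF.map f)).subset ?_
    rintro _ ⟨m, rfl⟩
    exact ⟨fun i => m • i, rfl⟩
  have hle : ∀ m : M, Mx (g m) K ≤ K := fun m => RG_le (hRG m) K
  obtain ⟨s, hs1, hs2, hs3⟩ := build (U K) Φ hΦfin
    (by rintro _ ⟨m, rfl⟩
        have h1 := hUm m K
        simp only
        rw [h1]
        exact (hUmul _ _ (hle m)).1)
    (by rintro _ ⟨m, rfl⟩
        have h1 := hUm m K
        simp only
        rw [h1]
        exact (hUmul _ _ (hle m)).2)
    (by rintro _ ⟨m, rfl⟩ _ ⟨m', rfl⟩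
        have h1 := hUm m K
        have h2 := hUm m' K
        simp only
        rw [h1, h2]
        rcases le_total (Mx (g m) K) (Mx (g m') K) with h3 | h3
        · exact Or.inr (hUmul _ _ h3).1
        · exact Or.inl (hUmul _ _ h3).2)
    {x | c x = col} hA {x | ∃ i, x.val i = some p} hR Before hQ
  refine ⟨s, hs2, hs1, col, ?_⟩
  rintro x ⟨l, hl1, ⟨b, hb, hb1⟩, rfl⟩
  have h1 := hs3 (l.map (fun a => (a.1, (act a.2 : FIN (K + 1) → FIN (K + 1)))))
    (by rw [List.pairwise_map]; exact hl1)
    (by
      intro x hx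
      obtain ⟨y, -, rfl⟩ := List.mem_map.1 hx
      exact ⟨y.2, rfl⟩)
    ⟨_, List.mem_map_of_mem hb, by
      show (act b.2 : FIN (K + 1) → FIN (K + 1)) = id
      rw [hb1]
      funext t
      apply PF.ext
      funext n
      simp [act, PF.map_val]⟩
  rw [List.map_map] at h1
  exact h1

/-- A pair `(M, k)` (with distinguished point `p`, `M p = k`) has property (R) if and only if there
is a linear order on `k` for which every `m ∈ M` acts as a restricted growth map. -/
theorem result (k : ℕ) (M : Type*) [Monoid M] [MulAction M (Fin k)] (p : Fin k)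
    (hp : ∀ x, ∃ m : M, m • p = x) : PropertyR k M p ↔ GrowthOrder k M :=
  ⟨necessity hp, sufficiency hp⟩

end Pool.Agent.Results.MP_14f6a1_co.Characterization
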